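import Pool.Agent.NH36.Cp.Defs
import Mathlib.LinearAlgebra.Dual.Lemmas

/-!
# The sign conjecture: calculus of transposes
-/

set_option autoImplicit false
set_option linter.unusedSectionVars false

open CategoryTheory Polynomial Pool.Agent.H914 Pool.Agent.H914.VarClass
  Pool.Agent.H914.VarClass.Obj
open Pool.Agent.W492.BB Pool.Agent.NH36.BB

universe u v w

namespace Pool.Agent.NH36.Cp

variable {k : Type u} [Field k] {𝒱 : VarClass k}

section theory

variable {F : Type w} [Field F] {δ : ℤ} (T : TheoryData.{u, v, w} 𝒱 F) {X Y Z : 𝒱.Obj}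

/-- the transpose of a correspondence -/
noncomputable def tp (G : T.A (X.prod Y)) : T.A (Y.prod X) :=
  T.push (Obj.lift (snd X Y) (fst X Y)) G

variable [hT : IsTheory T δ]

include hT

lemma act_tp (G : T.A (X.prod Y)) (b : T.A Y) : T.act (tp T G) b = coact T G b := by
  rw [T.act_apply, tp, ← T.proj_right, ← T.push_comp, ← T.pull_comp, lift_fst, lift_snd]
  rfl

lemma coact_tp (G : T.A (X.prod Y)) (a : T.A X) : coact T (tp T G) a = T.act G a := by
  change T.push (fst Y X) (T.push (Obj.lift (snd X Y) (fst X Y)) G * T.pull (snd Y X) a) = _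
  rw [← T.proj_right, ← T.push_comp, ← T.pull_comp, lift_fst, lift_snd, T.act_apply]

lemma tp_mem {i : ℤ} {G : T.A (X.prod Y)} (hG : T.Deg i G) : T.Deg i (tp T G) := by
  have h := T.push_mem (Obj.lift (snd X Y) (fst X Y)) hG
  have e : i + δ * (((Y.prod X).dim : ℤ) - (X.prod Y).dim) = i := by
    rw [Obj.dim_prod, Obj.dim_prod]; push_cast; ring
  rw [e] at h
  exact h

lemma coact_mulCorr (c a : T.A X) : coact T (T.mulCorr c) a = c * a := by
  change T.push (fst X X) (T.push (Obj.lift (𝟙 X) (𝟙 X)) c * T.pull (snd X X) a) = _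
  rw [← T.proj_right, ← T.push_comp, ← T.pull_comp, lift_fst, lift_snd, T.pull_id, T.push_id]

lemma mulCorr_mem {i : ℤ} {c : T.A X} (hc : T.Deg i c) : T.Deg (i + δ * X.dim) (T.mulCorr c) := by
  have h := T.push_mem (Obj.lift (𝟙 X) (𝟙 X)) hc
  have e : i + δ * (((X.prod X).dim : ℤ) - X.dim) = i + δ * X.dim := by
    rw [Obj.dim_prod]; push_cast; ring
  rw [e] at h
  exact h

lemma pow_mem' {i : ℤ} {c : T.A X} (hc : T.Deg i c) (r : ℕ) : T.Deg (r * i) (c ^ r) := by
  induction r with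
  | zero =>
    have := T.one_mem X
    simpa using this
  | succ r ih =>
    have h := T.mul_mem ih hc
    rw [pow_succ]
    have e : (r : ℤ) * i + i = ((r + 1 : ℕ) : ℤ) * i := by push_cast; ring
    rw [e] at h
    exact h

end theory

variable {C : TheoryData.{u, v, 0} 𝒱 ℚ}
  {K : Type w} [Field K] (H : WeilTheoryData.{u, v, w} C K)
  [hC : IsChow C] [hH : IsWeil H] {X Y Z : 𝒱.Obj}

lemma op_apply (G : C.A (X.prod Y)) (x : H.A X) : op H G x = H.act (H.cl G) x := rfl

lemma opT_apply (G : C.A (X.prod Y)) (y : H.A Y) :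
    opT H G y = coact H.toTheoryData (H.cl G) y := rfl

include hC hH

lemma cl_tp (G : C.A (X.prod Y)) : H.cl (tp C G) = tp H.toTheoryData (H.cl G) := H.cl_push _ _

lemma cl_mulCorr (c : C.A X) : H.cl (C.mulCorr c) = H.toTheoryData.mulCorr (H.cl c) :=
  H.cl_push _ _

lemma cl_comp (Γ : C.A (X.prod Y)) (Δ : C.A (Y.prod Z)) :
    H.cl (C.comp Γ Δ) = H.toTheoryData.comp (H.cl Γ) (H.cl Δ) := by
  unfold TheoryData.comp
  rw [H.cl_push, map_mul, H.cl_pull, H.cl_pull]

lemma cl_graph (f : X ⟶ Y) : H.cl (C.graph f) = H.toTheoryData.graph f := by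
  unfold TheoryData.graph
  rw [H.cl_push, map_one]

lemma op_comp (Γ : C.A (X.prod Y)) (Δ : C.A (Y.prod Z)) (x : H.A X) :
    op H (C.comp Γ Δ) x = op H Δ (op H Γ x) := by
  rw [op_apply, cl_comp, H.toTheoryData.act_comp]
  rfl

lemma op_tp (G : C.A (X.prod Y)) (b : H.A Y) : op H (tp C G) b = opT H G b := by
  rw [op_apply, cl_tp, act_tp]
  rfl

lemma opT_tp (G : C.A (X.prod Y)) (a : H.A X) : opT H (tp C G) a = op H G a := by
  rw [opT_apply, cl_tp, coact_tp]
  rfl

lemma op_mulCorr (c : C.A X) (a : H.A X) : op H (C.mulCorr c) a = H.cl c * a := by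
  rw [op_apply, cl_mulCorr, H.toTheoryData.act_mulCorr]

lemma opT_mulCorr (c : C.A X) (a : H.A X) : opT H (C.mulCorr c) a = H.cl c * a := by
  rw [opT_apply, cl_mulCorr, coact_mulCorr]

lemma op_graph_id (x : H.A X) : op H (C.graph (𝟙 X)) x = x := by
  rw [op_apply, cl_graph, H.toTheoryData.act_graph, H.toTheoryData.push_id]

lemma dual (Γ : C.A (X.prod Y)) (a : H.A X) (b : H.A Y) :
    H.tr Y (op H Γ a * b) = H.tr X (a * opT H Γ b) := tr_dual H Γ a b

lemma op_mem {i j m : ℤ} {Γ : C.A (X.prod Y)} (hΓ : C.Deg i Γ) {a : H.A X} (ha : H.Deg j a)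
    (hm : 2 * i + j - 2 * X.dim = m) : H.Deg m (op H Γ a) := by
  rw [← hm]
  exact act_mem H.toTheoryData (H.cl_mem hΓ) ha

lemma opT_mem {i j m : ℤ} {Γ : C.A (X.prod Y)} (hΓ : C.Deg i Γ) {b : H.A Y} (hb : H.Deg j b)
    (hm : 2 * i + j - 2 * Y.dim = m) : H.Deg m (opT H Γ b) := by
  rw [← hm]
  exact coact_mem H.toTheoryData (H.cl_mem hΓ) hb

/-- right nondegeneracy -/
lemma rnondeg (hF : FiniteFacts H) {b : H.A X} (h : ∀ x : H.A X, H.tr X (x * b) = 0) : b = 0 := by
  have := hF.finite X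
  let φ : H.A X →ₗ[K] Module.Dual K (H.A X) :=
    (H.tr X).compRight K ∘ₗ LinearMap.mul K (H.A X)
  have hφ : ∀ a x, φ a x = H.tr X (a * x) := fun a x => rfl
  have hinj : Function.Injective φ := by
    rw [← LinearMap.ker_eq_bot, LinearMap.ker_eq_bot']
    intro a ha
    apply H.nondeg
    intro x
    rw [← hφ, ha]
    rfl
  have hsurj : Function.Surjective φ :=
    (LinearMap.injective_iff_surjective_of_finrank_eq_finrank
      (Subspace.dual_finrank_eq (K := K) (V := H.A X)).symm).1 hinj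
  rw [← Module.forall_dual_apply_eq_zero_iff K]
  intro g
  obtain ⟨a, rfl⟩ := hsurj g
  rw [hφ, h]

lemma rnondeg_deg (hF : FiniteFacts H) {m : ℤ} {b : H.A X} (hb : H.Deg m b)
    (h : ∀ x : H.A X, H.Deg (2 * X.dim - m) x → H.tr X (x * b) = 0) : b = 0 := by
  apply rnondeg H hF
  intro x
  have hx : x ∈ ⨆ m, H.gr X m := by
    rw [(H.toTheoryData.isInternal X).submodule_iSup_eq_top]; exact Submodule.mem_top
  refine Submodule.iSup_induction (H.gr X) (motive := fun x => H.tr X (x * b) = 0) hx ?_ ?_ ?_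
  · intro l x hx
    by_cases hl : l = 2 * X.dim - m
    · exact h x (hl ▸ hx)
    · exact hF.tr_eq_zero X (l + m) (x * b) (H.toTheoryData.mul_mem hx hb) (by omega)
  · rw [zero_mul, map_zero]
  · intro x y hx hy
    rw [add_mul, map_add, hx, hy, add_zero]

lemma deg_zero (hF : FiniteFacts H) {m : ℤ} {b : H.A X} (hb : H.Deg m b)
    (h : m < 0 ∨ 2 * X.dim < m) : b = 0 := by
  rcases h with h | h
  · have := H.toTheoryData.gr_neg X m h
    rw [TheoryData.Deg, this] at hb
    exact (Submodule.mem_bot K).1 hb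
  · apply rnondeg_deg H hF hb
    intro x hx
    have h2 := H.toTheoryData.gr_neg X (2 * X.dim - m) (by omega)
    rw [TheoryData.Deg, h2] at hx
    rw [(Submodule.mem_bot K).1 hx, zero_mul, map_zero]

lemma opT_comp (hF : FiniteFacts H) (Γ : C.A (X.prod Y)) (Δ : C.A (Y.prod Z)) (b : H.A Z) :
    opT H (C.comp Γ Δ) b = opT H Γ (opT H Δ b) := by
  rw [← sub_eq_zero]
  apply rnondeg H hF
  intro x
  rw [mul_sub, map_sub, ← dual, op_comp, dual, dual, sub_self]

/-- the transpose of a Kunneth projector -/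
theorem kunneth_dual (hF : FiniteFacts H) {i : ℤ} (h : Kunneth H X i) :
    Kunneth H X (2 * X.dim - i) := by
  obtain ⟨Z, hZ, hZ'⟩ := h
  refine ⟨tp C Z, tp_mem C hZ, fun j b hb => ?_⟩
  rw [op_tp, ← sub_eq_zero]
  have h1 : H.Deg j (opT H Z b) := opT_mem H hZ hb (by ring)
  have h2 : H.Deg j (if j = 2 * X.dim - i then b else 0) := by
    split_ifs
    · exact hb
    · exact Submodule.zero_mem _
  apply rnondeg_deg H hF (Submodule.sub_mem _ h1 h2)
  intro x hx
  rw [mul_sub, map_sub, ← dual, hZ' _ x hx]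
  by_cases hj : j = 2 * X.dim - i
  · rw [if_pos hj, if_pos (by omega), sub_self]
  · rw [if_neg hj, if_neg (by omega), zero_mul, mul_zero, map_zero, sub_self]

end Pool.Agent.NH36.Cp
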