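import Pool.Agent.NH36.BB.Calc
import Mathlib.Algebra.Polynomial.AlgebraMap

/-!
# The sign conjecture (type `C⁺`) and cohomology of level one: definitions
-/

set_option autoImplicit false

open CategoryTheory Polynomial Pool.Agent.H914 Pool.Agent.H914.VarClass
  Pool.Agent.H914.VarClass.Obj
open Pool.Agent.W492.BB Pool.Agent.NH36.BB

universe u v w

namespace Pool.Agent.NH36.Cp

variable {k : Type u} [Field k] {𝒱 : VarClass k} {C : TheoryData.{u, v, 0} 𝒱 ℚ}
  {K : Type w} [Field K] (H : WeilTheoryData.{u, v, w} C K)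

/-- The action `x ↦ pr_{Y*} ([Z] pr_X^* x)` of the cycle `Z` on `X × Y` on the cohomology. -/
noncomputable def op {X Y : 𝒱.Obj} (Z : C.A (X.prod Y)) : H.A X →ₗ[K] H.A Y := H.actL (H.cl Z)

/-- The transposed action `y ↦ pr_{X*} ([Z] pr_Y^* y)`. -/
noncomputable def opT {X Y : 𝒱.Obj} (Z : C.A (X.prod Y)) : H.A Y →ₗ[K] H.A X :=
  coactL H.toTheoryData (H.cl Z)

/-- The Kunneth projector of `H^i(X)` is algebraic: it is induced by a cycle of codimension
`dim X` on `X × X`. -/
def Kunneth (X : 𝒱.Obj) (i : ℤ) : Prop :=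
  ∃ Z : C.A (X.prod X), C.Deg X.dim Z ∧
    ∀ (j : ℤ) (x : H.A X), H.Deg j x → op H Z x = if j = i then x else 0

/-- The statement `C⁺(X)`: the sum of the Kunneth projectors of even degree is algebraic. -/
def SignConj (X : 𝒱.Obj) : Prop :=
  ∃ Z : C.A (X.prod X), C.Deg X.dim Z ∧
    ∀ (j : ℤ) (x : H.A X), H.Deg j x → op H Z x = if Even j then x else 0

/-- The cohomology `H^(2c-1)(X)` has level one: it is the image of the first cohomology of a curve
`S` under a cycle of codimension `c` on `S × X`. -/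
def LevelOne (X : 𝒱.Obj) (c : ℕ) : Prop :=
  ∃ (S : 𝒱.Obj) (u : C.A (S.prod X)), S.dim = 1 ∧ C.Deg c u ∧
    ∀ x : H.A X, H.Deg (2 * c - 1) x → ∃ y : H.A S, H.Deg 1 y ∧ op H u y = x

/-- Classical facts on smooth projective curves `S` (Weil): the Kunneth projector of `H^1(S)` is
algebraic; the operator on `H^1(S)` induced by a divisor on `S × S` is a root of a polynomial with
rational coefficients; if `Z` is a divisor on `S × S` such that `Z^* Z_*` is zero on `H^1(S)`, then
`Z_*` is zero on `H^1(S)` (positivity of the trace of `Z^* Z_*`). -/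
structure CurveFacts [CharZero K] : Prop where
  projector : ∀ S : 𝒱.Obj, S.dim = 1 → ∃ p : C.A (S.prod S), C.Deg 1 p ∧
    ∀ (j : ℤ) (x : H.A S), H.Deg j x →
      op H p x = (if j = 1 then x else 0) ∧ opT H p x = (if j = 1 then x else 0)
  algebraic : ∀ (S : 𝒱.Obj) (Z : C.A (S.prod S)), S.dim = 1 → C.Deg 1 Z →
    ∃ f : ℚ[X], f ≠ 0 ∧ ∀ x : H.A S, H.Deg 1 x → aeval (op H Z) (f.map (Rat.castHom K)) x = 0
  positive : ∀ (S : 𝒱.Obj) (Z : C.A (S.prod S)), S.dim = 1 → C.Deg 1 Z →
    (∀ x : H.A S, H.Deg 1 x → opT H Z (op H Z x) = 0) → ∀ x : H.A S, H.Deg 1 x → op H Z x = 0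

/-- The cohomology is finite-dimensional and the orientation of `X` vanishes on `H^i(X)` for
`i ≠ 2 dim X`. -/
structure FiniteFacts : Prop where
  finite : ∀ X : 𝒱.Obj, Module.Finite K (H.A X)
  tr_eq_zero : ∀ (X : 𝒱.Obj) (i : ℤ) (x : H.A X), H.Deg i x → i ≠ 2 * X.dim → H.tr X x = 0

/-- The hard Lefschetz theorem for `X` (injectivity): there is a divisor class `h` such that for
all `j ≤ n = dim X` the product with `h^(n-j)` is injective on `H^j(X)`. -/
def HardLefschetz (X : 𝒱.Obj) : Prop :=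
  ∃ h : C.A X, C.Deg 1 h ∧ ∀ (j : ℕ) (x : H.A X), j ≤ X.dim → H.Deg j x →
    H.mul (H.cl (h ^ (X.dim - j))) x = 0 → x = 0

end Pool.Agent.NH36.Cp
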