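import Pool.Agent.NH36.Cp.Main

/-!
# The sign conjecture and cohomology of level one: the notions of the theorem
-/

set_option autoImplicit false

open CategoryTheory Pool.Agent.H914 Pool.Agent.H914.VarClass Pool.Agent.H914.VarClass.Obj
open Pool.Agent.W492.BB Pool.Agent.NH36.BB

universe u v w

namespace Pool.Agent.NH36.CpF

variable {k : Type u} [Field k] {𝒱 : VarClass k} {C : TheoryData.{u, v, 0} 𝒱 ℚ}
  {K : Type w} [Field K] (H : WeilTheoryData.{u, v, w} C K)

/-- The action `x ↦ pr_{Y*} ([Z] pr_X^* x)` of the cycle `Z` on `X × Y` on the cohomology. -/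
noncomputable def star {X Y : 𝒱.Obj} (Z : C.A (X.prod Y)) (x : H.A X) : H.A Y :=
  H.act (H.cl Z) x

/-- The transposed action `y ↦ pr_{X*} ([Z] pr_Y^* y)`. -/
noncomputable def starT {X Y : 𝒱.Obj} (Z : C.A (X.prod Y)) (y : H.A Y) : H.A X :=
  coact H.toTheoryData (H.cl Z) y

/-- The operator `Φ` is the projector of the cohomology of `X` to `H^i(X)`. -/
def IsProjector {X : 𝒱.Obj} (Φ : H.A X → H.A X) (i : ℤ) : Prop :=
  ∀ (j : ℤ) (x : H.A X), H.Deg j x → Φ x = if j = i then x else 0

/-- The Kunneth projector of `H^i(X)` is algebraic: it is induced by a cycle of codimension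
`dim X` on `X × X`. -/
def KunnethAlgebraic (X : 𝒱.Obj) (i : ℤ) : Prop :=
  ∃ Z : C.A (X.prod X), C.Deg X.dim Z ∧ IsProjector H (star H Z) i

/-- The statement `C⁺(X)`: the sum of the Kunneth projectors of even degree is algebraic. -/
def SignConjecture (X : 𝒱.Obj) : Prop :=
  ∃ Z : C.A (X.prod X), C.Deg X.dim Z ∧
    ∀ (j : ℤ) (x : H.A X), H.Deg j x → star H Z x = if Even j then x else 0

/-- The cohomology `H^(2c-1)(X)` has level one: it is the image of the first cohomology of a curve
`S` under a cycle of codimension `c` on `S × X`. -/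
def HasLevelOne (X : 𝒱.Obj) (c : ℕ) : Prop :=
  ∃ (S : 𝒱.Obj) (u : C.A (S.prod X)), S.dim = 1 ∧ C.Deg c u ∧
    ∀ x : H.A X, H.Deg (2 * c - 1) x → ∃ y : H.A S, H.Deg 1 y ∧ star H u y = x

/-- The value at `x` of the polynomial `f` with rational coefficients in the operator `Φ`. -/
noncomputable def polyAct {X : 𝒱.Obj} (f : Polynomial ℚ) (Φ : H.A X → H.A X) (x : H.A X) : H.A X :=
  f.sum fun i a => (a : K) • Φ^[i] x

/-- The Kunneth projector of `H^1(S)` is algebraic, for all curves `S`. -/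
def CurveProjector : Prop :=
  ∀ S : 𝒱.Obj, S.dim = 1 → ∃ p : C.A (S.prod S), C.Deg 1 p ∧ IsProjector H (star H p) 1 ∧
    IsProjector H (starT H p) 1

/-- The operator on `H^1(S)` induced by a divisor on `S × S` is a root of a nonzero polynomial with
rational coefficients, for all curves `S`. -/
def CurveAlgebraic : Prop :=
  ∀ (S : 𝒱.Obj) (Z : C.A (S.prod S)), S.dim = 1 → C.Deg 1 Z →
    ∃ f : Polynomial ℚ, f ≠ 0 ∧ ∀ x : H.A S, H.Deg 1 x → polyAct H f (star H Z) x = 0

/-- If `Z` is a divisor on `S × S`, where `S` is a curve, such that `Z^* Z_*` is zero on `H^1(S)`,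
then `Z_*` is zero on `H^1(S)` (positivity of the trace of `Z^* Z_*`). -/
def CurvePositive : Prop :=
  ∀ (S : 𝒱.Obj) (Z : C.A (S.prod S)), S.dim = 1 → C.Deg 1 Z →
    (∀ x : H.A S, H.Deg 1 x → starT H Z (star H Z x) = 0) →
      ∀ x : H.A S, H.Deg 1 x → star H Z x = 0

/-- Classical facts on curves (Weil). -/
structure WeilCurveFacts : Prop where
  projector : CurveProjector H
  algebraic : CurveAlgebraic H
  positive : CurvePositive H

/-- The cohomology is finite-dimensional and the orientation of `X` vanishes on `H^i(X)` for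
`i ≠ 2 dim X`. -/
structure FiniteCohomology : Prop where
  finite : ∀ X : 𝒱.Obj, Module.Finite K (H.A X)
  tr_eq_zero : ∀ (X : 𝒱.Obj) (i : ℤ) (x : H.A X), H.Deg i x → i ≠ 2 * X.dim → H.tr X x = 0

/-- The hard Lefschetz theorem for `X` (injectivity): there is a divisor class `h` such that for
all `j ≤ n = dim X` the product with `h^(n-j)` is injective on `H^j(X)`. -/
def HardLefschetzFor (X : 𝒱.Obj) : Prop :=
  ∃ h : C.A X, C.Deg 1 h ∧ ∀ (j : ℕ) (x : H.A X), j ≤ X.dim → H.Deg j x →
    H.mul (H.cl (h ^ (X.dim - j))) x = 0 → x = 0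

variable {H}

lemma polyAct_eq [CharZero K] {X : 𝒱.Obj} (f : Polynomial ℚ) (Z : C.A (X.prod X)) (x : H.A X) :
    Polynomial.aeval (Cp.op H Z) (f.map (Rat.castHom K)) x = polyAct H f (star H Z) x := by
  rw [Polynomial.aeval_def, Polynomial.eval₂_map, Polynomial.eval₂_eq_sum, polyAct,
    Polynomial.sum_def, Polynomial.sum_def, LinearMap.sum_apply]
  refine Finset.sum_congr rfl fun i _ => ?_
  rw [RingHom.comp_apply, ← Algebra.smul_def, LinearMap.smul_apply, Module.End.pow_apply]
  rfl

lemma curveFacts [CharZero K] (h : WeilCurveFacts H) : Cp.CurveFacts H where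
  projector S hS := by
    obtain ⟨p, hp, h1, h2⟩ := h.projector S hS
    exact ⟨p, hp, fun j x hx => ⟨h1 j x hx, h2 j x hx⟩⟩
  algebraic S Z hS hZ := by
    obtain ⟨f, hf, h1⟩ := h.algebraic S Z hS hZ
    exact ⟨f, hf, fun x hx => (polyAct_eq f Z x).trans (h1 x hx)⟩
  positive S Z hS hZ h1 x hx := h.positive S Z hS hZ h1 x hx

lemma finiteFacts (h : FiniteCohomology H) : Cp.FiniteFacts H := ⟨h.finite, h.tr_eq_zero⟩

end Pool.Agent.NH36.CpF
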