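import Pool.Agent.NH36.Cp.Basic

/-!
# The sign conjecture for varieties whose odd cohomology has level one
-/

set_option autoImplicit false
set_option linter.unusedSectionVars false

open CategoryTheory Polynomial Pool.Agent.H914 Pool.Agent.H914.VarClass
  Pool.Agent.H914.VarClass.Obj
open Pool.Agent.W492.BB Pool.Agent.NH36.BB

universe u v w

namespace Pool.Agent.NH36.Cp

variable {k : Type u} [Field k] {𝒱 : VarClass k} {C : TheoryData.{u, v, 0} 𝒱 ℚ}
  {K : Type w} [Field K] [CharZero K] (H : WeilTheoryData.{u, v, w} C K)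
  [hC : IsChow C] [hH : IsWeil H] {W Y Z S : 𝒱.Obj}

include hC hH

lemma op_sum {ι : Type} (s : Finset ι) (a : ι → ℚ) (G : ι → C.A (W.prod Y)) (x : H.A W) :
    op H (∑ i ∈ s, a i • G i) x = ∑ i ∈ s, (a i : K) • op H (G i) x := by
  rw [op_apply, map_sum, act_sum_left]
  refine Finset.sum_congr rfl fun i _ => ?_
  have h := map_ratCast_smul (H.cl : C.A (W.prod Y) →+* H.A (W.prod Y)) ℚ K (a i) (G i)
  rw [Rat.cast_id] at h
  rw [h, act_smul_left]
  rfl

lemma opT_eq_op_tp (G : C.A (W.prod Y)) (x : H.A Y) : opT H G x = op H (tp C G) x :=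
  (op_tp H G x).symm

lemma opT_sum {ι : Type} (s : Finset ι) (a : ι → ℚ) (G : ι → C.A (W.prod Y)) (x : H.A Y) :
    opT H (∑ i ∈ s, a i • G i) x = ∑ i ∈ s, (a i : K) • opT H (G i) x := by
  have e : tp C (∑ i ∈ s, a i • G i) = ∑ i ∈ s, a i • tp C (G i) := by
    unfold tp
    rw [map_sum]
    exact Finset.sum_congr rfl fun i _ => map_smul _ _ _
  rw [opT_eq_op_tp, e, op_sum]
  exact Finset.sum_congr rfl fun i _ => by rw [opT_eq_op_tp]

/-- the correspondences inducing the powers of `Φ` on `H^1(S)` -/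
noncomputable def pw (p Φ : C.A (S.prod S)) : ℕ → C.A (S.prod S)
  | 0 => p
  | j + 1 => C.comp (pw p Φ j) Φ

omit hH [CharZero K] in
lemma pw_mem {p Φ : C.A (S.prod S)} (hS : S.dim = 1) (hp : C.Deg 1 p) (hΦ : C.Deg 1 Φ) (j : ℕ) :
    C.Deg 1 (pw p Φ j) := by
  induction j with
  | zero => exact hp
  | succ j ih =>
    have h := comp_mem C ih hΦ
    have e : (1 : ℤ) + 1 - 1 * S.dim = 1 := by rw [hS]; norm_num
    rw [e] at h
    exact h

/-- the correspondence inducing `g(Φ)` on `H^1(S)` -/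
noncomputable def ev (p Φ : C.A (S.prod S)) (g : ℚ[X]) : C.A (S.prod S) :=
  ∑ j ∈ Finset.range (g.natDegree + 1), g.coeff j • pw p Φ j

omit hH [CharZero K] in
lemma ev_mem {p Φ : C.A (S.prod S)} (hS : S.dim = 1) (hp : C.Deg 1 p) (hΦ : C.Deg 1 Φ)
    (g : ℚ[X]) : C.Deg 1 (ev p Φ g) :=
  Submodule.sum_mem _ fun j _ => Submodule.smul_mem _ _ (pw_mem hS hp hΦ j)

omit hC hH in
/-- `g(Φ)` for a polynomial `g` with rational coefficients -/
noncomputable def E (Φ : Module.End K (H.A S)) (g : ℚ[X]) : Module.End K (H.A S) :=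
  aeval Φ (g.map (Rat.castHom K))

omit hC hH in
lemma E_apply (Φ : Module.End K (H.A S)) (g : ℚ[X]) (x : H.A S) :
    E H Φ g x = ∑ j ∈ Finset.range (g.natDegree + 1), (g.coeff j : K) • (Φ ^ j) x := by
  unfold E
  rw [aeval_eq_sum_range, natDegree_map, LinearMap.sum_apply]
  refine Finset.sum_congr rfl fun j _ => ?_
  rw [coeff_map]
  rfl

omit hC hH in
lemma E_mul (Φ : Module.End K (H.A S)) (f g : ℚ[X]) (x : H.A S) :
    E H Φ (f * g) x = E H Φ f (E H Φ g x) := by
  unfold E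
  rw [Polynomial.map_mul, map_mul]
  rfl

omit hC hH in
lemma E_X (Φ : Module.End K (H.A S)) (x : H.A S) : E H Φ X x = Φ x := by
  unfold E
  rw [Polynomial.map_X, aeval_X]

omit hC hH in
lemma E_C (Φ : Module.End K (H.A S)) (a : ℚ) (x : H.A S) : E H Φ (Polynomial.C a) x = (a : K) • x := by
  unfold E
  rw [Polynomial.map_C, aeval_C]
  rfl

omit hC hH in
lemma E_add (Φ : Module.End K (H.A S)) (f g : ℚ[X]) (x : H.A S) :
    E H Φ (f + g) x = E H Φ f x + E H Φ g x := by
  unfold E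
  rw [Polynomial.map_add, map_add]
  rfl

lemma op_pw {p Φ : C.A (S.prod S)} {x : H.A S} (hp : op H p x = x) (j : ℕ) :
    op H (pw p Φ j) x = (op H Φ ^ j) x := by
  induction j with
  | zero => exact hp
  | succ j ih =>
    rw [pw, op_comp, ih, pow_succ']
    rfl

lemma pow_deg {Φ : C.A (S.prod S)} (hS : S.dim = 1) (hΦ : C.Deg 1 Φ) {x : H.A S} (hx : H.Deg 1 x)
    (j : ℕ) : H.Deg 1 ((op H Φ ^ j) x) := by
  induction j with
  | zero => exact hx
  | succ j ih =>
    rw [pow_succ']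
    exact op_mem H hΦ ih (by rw [hS]; norm_num)

lemma opT_pw (hF : FiniteFacts H) {p Φ : C.A (S.prod S)} (hS : S.dim = 1) (hΦ : C.Deg 1 Φ)
    (hself : ∀ y : H.A S, opT H Φ y = op H Φ y)
    (hp : ∀ x : H.A S, H.Deg 1 x → opT H p x = x) (j : ℕ) :
    ∀ x : H.A S, H.Deg 1 x → opT H (pw p Φ j) x = (op H Φ ^ j) x := by
  induction j with
  | zero => exact hp
  | succ j ih =>
    intro x hx
    rw [pw, opT_comp H hF, hself, ih _ (op_mem H hΦ hx (by rw [hS]; norm_num)), pow_succ]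
    rfl

lemma op_ev {p Φ : C.A (S.prod S)} {x : H.A S} (hp : op H p x = x) (g : ℚ[X]) :
    op H (ev p Φ g) x = E H (op H Φ) g x := by
  rw [ev, op_sum, E_apply]
  exact Finset.sum_congr rfl fun j _ => by rw [op_pw H hp]

lemma op_ev_zero {p Φ : C.A (S.prod S)} {x : H.A S} (hp : op H p x = 0) (g : ℚ[X]) :
    op H (ev p Φ g) x = 0 := by
  rw [ev, op_sum]
  have h : ∀ j : ℕ, op H (pw p Φ j) x = 0 := by
    intro j
    induction j with
    | zero => exact hp
    | succ j ih => rw [pw, op_comp, ih, map_zero]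
  exact Finset.sum_eq_zero fun j _ => by rw [h, smul_zero]

lemma opT_ev (hF : FiniteFacts H) {p Φ : C.A (S.prod S)} (hS : S.dim = 1) (hΦ : C.Deg 1 Φ)
    (hself : ∀ y : H.A S, opT H Φ y = op H Φ y)
    (hp : ∀ x : H.A S, H.Deg 1 x → opT H p x = x) (g : ℚ[X]) (x : H.A S) (hx : H.Deg 1 x) :
    opT H (ev p Φ g) x = E H (op H Φ) g x := by
  rw [ev, opT_sum, E_apply]
  exact Finset.sum_congr rfl fun j _ => by rw [opT_pw H hF hS hΦ hself hp j x hx]

lemma E_deg {Φ : C.A (S.prod S)} (hS : S.dim = 1) (hΦ : C.Deg 1 Φ) (g : ℚ[X]) {x : H.A S}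
    (hx : H.Deg 1 x) : H.Deg 1 (E H (op H Φ) g x) := by
  rw [E_apply]
  exact Submodule.sum_mem _ fun j _ => Submodule.smul_mem _ _ (pow_deg H hS hΦ hx j)

/-- the correspondence `Φ` on `H^1(S)` has a quasi-inverse which is a polynomial in `Φ` -/
lemma exists_inverse (hCF : CurveFacts H) (hF : FiniteFacts H) {p Φ : C.A (S.prod S)}
    (hS : S.dim = 1) (hp : C.Deg 1 p) (hp1 : ∀ (j : ℤ) (x : H.A S), H.Deg j x →
      op H p x = (if j = 1 then x else 0) ∧ opT H p x = (if j = 1 then x else 0))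
    (hΦ : C.Deg 1 Φ) (hself : ∀ y : H.A S, opT H Φ y = op H Φ y) :
    ∃ g : ℚ[X], ∀ x : H.A S, H.Deg 1 x →
      op H Φ (E H (op H Φ) g (op H Φ x)) = op H Φ x := by
  classical
  have q1 : ∀ x : H.A S, H.Deg 1 x → op H p x = x := fun x hx => by
    have := (hp1 1 x hx).1
    simpa using this
  have q2 : ∀ x : H.A S, H.Deg 1 x → opT H p x = x := fun x hx => by
    have := (hp1 1 x hx).2
    simpa using this
  obtain ⟨f, hf0, hf⟩ := hCF.algebraic S Φ hS hΦ
  obtain ⟨a0, n, hn, hfn⟩ : ∃ (a : ℕ) (n : ℚ[X]), n.coeff 0 ≠ 0 ∧ f = X ^ a * n := by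
    obtain ⟨a, ha⟩ : ∃ a, a = f.natTrailingDegree := ⟨_, rfl⟩
    have h1 : X ^ a ∣ f := by
      rw [X_pow_dvd_iff]
      intro d hd
      rw [ha] at hd
      exact coeff_eq_zero_of_lt_natTrailingDegree hd
    obtain ⟨n, hn⟩ := h1
    refine ⟨a, n, ?_, hn⟩
    have h2 : f.coeff a = n.coeff 0 := by
      conv_lhs => rw [hn]
      have := coeff_X_pow_mul n a 0
      rwa [zero_add] at this
    rw [← h2, ha]
    exact (trailingCoeff_nonzero_iff_nonzero (p := f)).2 hf0
  -- the least exponent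
  have hex : ∃ a : ℕ, ∀ x : H.A S, H.Deg 1 x → E H (op H Φ) (X ^ a * n) x = 0 :=
    ⟨a0, fun x hx => by rw [← hfn]; exact hf x hx⟩
  have hmin : Nat.find hex ≤ 1 := by
    by_contra hcon
    push Not at hcon
    obtain ⟨b, hb⟩ : ∃ b, Nat.find hex = b + 2 := ⟨Nat.find hex - 2, by omega⟩
    have h1 := Nat.find_spec hex
    rw [hb] at h1
    have h2 : ¬ ∀ x : H.A S, H.Deg 1 x → E H (op H Φ) (X ^ (b + 1) * n) x = 0 :=
      Nat.find_min hex (by omega)
    apply h2
    have h3 := hCF.positive S (ev p Φ (X ^ (b + 1) * n)) hS (ev_mem hS hp hΦ _) (by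
      intro x hx
      rw [op_ev H (q1 x hx), opT_ev H hF hS hΦ hself q2 _ _ (E_deg H hS hΦ _ hx), ← E_mul]
      have e : (X ^ (b + 1) * n) * (X ^ (b + 1) * n) = (X ^ b * n) * (X ^ (b + 2) * n) := by ring
      rw [e, E_mul, h1 x hx, map_zero])
    intro x hx
    rw [← op_ev H (q1 x hx)]
    exact h3 x hx
  have hX : ∀ x : H.A S, H.Deg 1 x → E H (op H Φ) (X * n) x = 0 := by
    intro x hx
    have h1 := Nat.find_spec hex x hx
    rcases Nat.le_one_iff_eq_zero_or_eq_one.1 hmin with h0 | h0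
    · rw [h0, pow_zero, one_mul] at h1
      rw [E_mul, h1, map_zero]
    · rwa [h0, pow_one] at h1
  refine ⟨Polynomial.C (-(n.coeff 0)⁻¹) * n.divX, fun x hx => ?_⟩
  have h1 := hX x hx
  have e : X * n = X * (X * n.divX) + X * Polynomial.C (n.coeff 0) := by
    conv_lhs => rw [← X_mul_divX_add n]
    ring
  have hcomm : ∀ (g : ℚ[X]) (y : H.A S), op H Φ (E H (op H Φ) g y) = E H (op H Φ) g (op H Φ y) := by
    intro g y
    rw [← E_X H (op H Φ) (E H (op H Φ) g y), ← E_mul, mul_comm, E_mul, E_X]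
  rw [e, E_add, E_mul, E_X, E_mul, E_X, E_mul, E_X, E_C, map_smul] at h1
  rw [E_mul, E_C, map_smul, ← hcomm, eq_neg_of_add_eq_zero_left h1, smul_neg, smul_smul]
  have hK : (n.coeff 0 : K) ≠ 0 := by exact_mod_cast hn
  push_cast
  rw [neg_mul, inv_mul_cancel₀ hK, neg_smul, one_smul, neg_neg]

theorem kunneth_of_levelOne {X : 𝒱.Obj} (hCF : CurveFacts H) (hF : FiniteFacts H)
    (hX : HardLefschetz H X) {c : ℕ} (hc : 1 ≤ c) (hcX : 2 * c - 1 ≤ X.dim)
    (hL : LevelOne H X c) : Kunneth H X (2 * c - 1) := by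
  classical
  obtain ⟨S, u, hS, hu, hsurj⟩ := hL
  obtain ⟨h, hh, hHL⟩ := hX
  obtain ⟨p, hp, hp1⟩ := hCF.projector S hS
  -- the exponent
  obtain ⟨r, hr⟩ : ∃ r : ℕ, r = X.dim - (2 * c - 1) := ⟨_, rfl⟩
  have hrZ : (r : ℤ) = X.dim - (2 * c - 1) := by omega
  have hhr : C.Deg r (h ^ r) := by
    have := pow_mem' C hh r
    rwa [mul_one] at this
  -- the correspondence on `S`
  let Φ : C.A (S.prod S) := C.comp (C.comp u (C.mulCorr (h ^ r))) (tp C u)
  have hΦ : C.Deg 1 Φ := by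
    have h1 := comp_mem C (comp_mem C hu (mulCorr_mem C hhr)) (tp_mem C hu)
    have e : (c : ℤ) + (r + 1 * X.dim) - 1 * X.dim + c - 1 * X.dim = 1 := by rw [hrZ]; ring
    rw [e] at h1
    exact h1
  have hop : ∀ y : H.A S, op H Φ y = opT H u (H.cl (h ^ r) * op H u y) := by
    intro y
    rw [op_comp, op_comp, op_tp, op_mulCorr]
  have hself : ∀ y : H.A S, opT H Φ y = op H Φ y := by
    intro y
    rw [hop, opT_comp H hF, opT_comp H hF, opT_tp, opT_mulCorr]
  -- degrees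
  have du : ∀ y : H.A S, H.Deg 1 y → H.Deg (2 * c - 1) (op H u y) := fun y hy =>
    op_mem H hu hy (by rw [hS]; push_cast; ring)
  have dcl : H.Deg (2 * r) (H.cl (h ^ r)) := H.cl_mem hhr
  -- the kernel of `Φ`
  have hker : ∀ y : H.A S, H.Deg 1 y → op H Φ y = 0 → op H u y = 0 := by
    intro y hy h0
    rw [hop] at h0
    have d1 : H.Deg (2 * r + (2 * c - 1)) (H.cl (h ^ r) * op H u y) :=
      H.toTheoryData.mul_mem dcl (du y hy)
    have h1 : H.cl (h ^ r) * op H u y = 0 := by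
      apply rnondeg_deg H hF d1
      intro x hx
      have e : (2 * X.dim - (2 * r + (2 * c - 1)) : ℤ) = 2 * c - 1 := by rw [hrZ]; ring
      rw [e] at hx
      obtain ⟨z, hz, rfl⟩ := hsurj x hx
      rw [dual, h0, mul_zero, map_zero]
    refine hHL (2 * c - 1) (op H u y) hcX ?_ ?_
    · have e : (((2 * c - 1 : ℕ) : ℤ)) = 2 * c - 1 := by omega
      rw [e]
      exact du y hy
    · rw [← hr]
      exact h1
  obtain ⟨g, hg⟩ := exists_inverse H hCF hF hS hp hp1 hΦ hself
  have q1 : ∀ x : H.A S, H.Deg 1 x → op H p x = x := fun x hx => by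
    have := (hp1 1 x hx).1
    simpa using this
  refine ⟨C.comp (C.comp (C.comp (C.mulCorr (h ^ r)) (tp C u)) (ev p Φ g)) u, ?_, ?_⟩
  · have h1 := comp_mem C (comp_mem C (comp_mem C (mulCorr_mem C hhr) (tp_mem C hu))
      (ev_mem hS hp hΦ g)) hu
    have e : ((r : ℤ) + 1 * X.dim + c - 1 * X.dim + 1 - 1 * S.dim + c - 1 * S.dim) = X.dim := by
      rw [hrZ, hS]; push_cast; ring
    rw [e] at h1
    exact h1
  · intro j x hx
    rw [op_comp, op_comp, op_comp, op_tp, op_mulCorr]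
    have d1 : H.Deg (2 * r + j) (H.cl (h ^ r) * x) := H.toTheoryData.mul_mem dcl hx
    have d2 : H.Deg (j - (2 * c - 1) + 1) (opT H u (H.cl (h ^ r) * x)) :=
      opT_mem H hu d1 (by rw [hrZ]; ring)
    split_ifs with hj
    · obtain ⟨y, hy, rfl⟩ := hsurj x (hj ▸ hx)
      rw [← hop]
      have d3 : H.Deg 1 (op H Φ y) := op_mem H hΦ hy (by rw [hS]; norm_num)
      rw [op_ev H (q1 _ d3)]
      have h1 : op H Φ (E H (op H Φ) g (op H Φ y) - y) = 0 := by
        rw [map_sub, hg y hy, sub_self]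
      have h2 := hker _ (Submodule.sub_mem _ (E_deg H hS hΦ g d3) hy) h1
      rw [map_sub] at h2
      exact sub_eq_zero.1 h2
    · have h1 := (hp1 _ _ d2).1
      rw [if_neg (by omega)] at h1
      rw [op_ev_zero H h1, map_zero]

theorem sign_of_levels {X : 𝒱.Obj} (hCF : CurveFacts H) (hF : FiniteFacts H)
    (hX : HardLefschetz H X)
    (h : ∀ c : ℕ, 1 ≤ c → 2 * c - 1 ≤ X.dim → LevelOne H X c ∨ Kunneth H X (2 * c - 1)) :
    SignConj H X := by
  classical
  have h1 : ∀ i : ℕ, Odd i → i ≤ 2 * X.dim → Kunneth H X i := by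
    have h2 : ∀ c : ℕ, 1 ≤ c → 2 * c - 1 ≤ X.dim → Kunneth H X (2 * c - 1) := by
      intro c hc hcX
      rcases h c hc hcX with h | h
      · exact kunneth_of_levelOne H hCF hF hX hc hcX h
      · exact h
    rintro i ⟨m, rfl⟩ hi
    by_cases hm : 2 * m + 1 ≤ X.dim
    · have h3 := h2 (m + 1) (by omega) (by omega)
      have e : (2 * ((m + 1 : ℕ) : ℤ) - 1) = ((2 * m + 1 : ℕ) : ℤ) := by push_cast; ring
      rwa [e] at h3
    · have h3 := h2 (X.dim - m) (by omega) (by omega)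
      have h4 := kunneth_dual H hF h3
      have e : (2 * (X.dim : ℤ) - (2 * ((X.dim - m : ℕ) : ℤ) - 1)) = ((2 * m + 1 : ℕ) : ℤ) := by
        omega
      rwa [e] at h4
  choose Z hZ hZ' using h1
  let W : ℕ → C.A (X.prod X) := fun i =>
    if hi : Odd i ∧ i ≤ 2 * X.dim then Z i hi.1 hi.2 else 0
  refine ⟨C.graph (𝟙 X) - ∑ i ∈ Finset.range (2 * X.dim + 1), (1 : ℚ) • W i, ?_, ?_⟩
  · refine Submodule.sub_mem _ ?_ (Submodule.sum_mem _ fun i _ => Submodule.smul_mem _ _ ?_)
    · have h2 := graph_mem C (𝟙 X)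
      rwa [one_mul] at h2
    · simp only [W]
      split_ifs with hi
      · exact hZ i hi.1 hi.2
      · exact Submodule.zero_mem _
  · intro j x hx
    have e1 : op H (C.graph (𝟙 X) - ∑ i ∈ Finset.range (2 * X.dim + 1), (1 : ℚ) • W i) x =
        x - op H (∑ i ∈ Finset.range (2 * X.dim + 1), (1 : ℚ) • W i) x := by
      rw [op_apply, map_sub, H.toTheoryData.act_sub, ← op_apply, op_graph_id]
      rfl
    rw [e1, op_sum]
    have e2 : ∀ i ∈ Finset.range (2 * X.dim + 1), ((1 : ℚ) : K) • op H (W i) x =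
        if (i : ℤ) = j ∧ Odd i then x else 0 := by
      intro i hi
      rw [Rat.cast_one, one_smul]
      simp only [W]
      by_cases hodd : Odd i
      · rw [dif_pos ⟨hodd, by have := Finset.mem_range.1 hi; omega⟩, hZ' _ _ _ j x hx]
        by_cases hj : (i : ℤ) = j
        · rw [if_pos hj.symm, if_pos ⟨hj, hodd⟩]
        · rw [if_neg (fun h => hj h.symm), if_neg (fun h => hj h.1)]
      · rw [dif_neg (fun h => hodd h.1), if_neg (fun h => hodd h.2), op_apply, map_zero,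
          H.toTheoryData.act_zero]
    rw [Finset.sum_congr rfl e2]
    by_cases hje : Even j
    · rw [if_pos hje, Finset.sum_eq_zero, sub_zero]
      intro i _
      rw [if_neg]
      rintro ⟨rfl, h2⟩
      rw [Int.even_coe_nat] at hje
      exact (Nat.not_even_iff_odd.2 h2) hje
    · rw [if_neg hje]
      by_cases hr : j < 0 ∨ 2 * (X.dim : ℤ) < j
      · rw [deg_zero H hF hx hr]
        simp
      · push Not at hr
        obtain ⟨n, rfl⟩ := Int.eq_ofNat_of_zero_le hr.1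
        have hodd : Odd n := by
          by_contra h2
          rw [Nat.not_odd_iff_even] at h2
          exact hje ((Int.even_coe_nat n).2 h2)
        rw [Finset.sum_eq_single n]
        · rw [if_pos ⟨rfl, hodd⟩, sub_self]
        · intro b _ hb
          rw [if_neg]
          rintro ⟨h2, -⟩
          exact hb (by exact_mod_cast h2)
        · intro hn
          exfalso
          apply hn
          rw [Finset.mem_range]
          have := hr.2
          omega

end Pool.Agent.NH36.Cp
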